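import Pool.Agent.H519R3.RE.X4

/-!
MP_19ffc6_ag: resolution of the quotients of affine spaces by families of commuting vector fields
which are linearly independent outside a coordinate subspace.
-/

set_option autoImplicit false

open AlgebraicGeometry CategoryTheory MvPolynomial Pool.Agent.H920R2

universe u

namespace Pool.Agent.Results.MP_19ffc6_ag.IndependentFields

variable {k : Type u} [Field k] {n m r : ℕ}

/-- The vector field `∑ t, v t * ∂/∂(Y t)` on the affine space with the coordinates `X i`, `Y t`,
where the `v t` are polynomials in the `X i`. -/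
noncomputable def field (v : Fin m → MvPolynomial (Fin n) k) :
    Derivation k (MvPolynomial (Fin n ⊕ Fin m) k) (MvPolynomial (Fin n ⊕ Fin m) k) :=
  mkDerivation k (Sum.elim (fun _ => 0) fun t => rename Sum.inl (v t))

/-- The algebra of common constants of the vector fields of the rows of a matrix. -/
noncomputable def constants (v : Fin r → Fin m → MvPolynomial (Fin n) k) :
    Subalgebra k (MvPolynomial (Fin n ⊕ Fin m) k) where
  carrier := {b | ∀ j, field (v j) b = 0}
  mul_mem' := by
    intro a b ha hb j
    rw [Derivation.leibniz, ha j, hb j, smul_zero, smul_zero, add_zero]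
  add_mem' := by
    intro a b ha hb j
    rw [map_add, ha j, hb j, add_zero]
  algebraMap_mem' := fun a j => (field (v j)).map_algebraMap a

/-- The quotient of the affine space by the vector fields. -/
noncomputable def quot (v : Fin r → Fin m → MvPolynomial (Fin n) k) : Scheme.{u} :=
  Spec (CommRingCat.of (constants v))

/-- The structure morphism of the quotient. -/
noncomputable def quotStr (v : Fin r → Fin m → MvPolynomial (Fin n) k) :
    quot v ⟶ Spec (CommRingCat.of k) :=
  Spec.map (CommRingCat.ofHom (algebraMap k (constants v)))

/-- Let `k` be a field of characteristic `p`, let the coordinates `X i` of affine `n`-space have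
weights `w i ≥ 0`, not all `0`, and let `v j = (v j t)`, for `j < r`, be vectors of polynomials in
the `X i`, such that the entries of `v j` are weighted homogeneous of the same degree `l j`.
Suppose that the vectors `v 1 (z), ..., v r (z)` are linearly independent at every point `z` (with
coordinates in any field) outside the subspace where the coordinates of positive weight vanish.
Then the quotient of affine `n + m`-space by the `r` commuting vector fields
`∑ t, v j t * ∂/∂(Y t)` is a variety and has a resolution of singularities. -/
theorem result (p : ℕ) [Fact p.Prime] (k : Type u) [Field k] [CharP k p] (n m r : ℕ)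
    (w : Fin n → ℕ) (hw : ∃ i, 0 < w i) (l : Fin r → ℕ)
    (v : Fin r → Fin m → MvPolynomial (Fin n) k)
    (hv : ∀ j t, IsWeightedHomogeneous w (v j t) (l j))
    (hV : ∀ (K : Type u) [Field K] [Algebra k K] (z : Fin n → K), (∃ i, 0 < w i ∧ z i ≠ 0) →
      LinearIndependent K (fun j t => aeval z (v j t))) :
    IsVariety (quotStr v) ∧
    ∃ (Y : Scheme.{u}) (π : Y ⟶ quot v),
      AlgebraicGeometry.IsIntegral Y ∧ AlgebraicGeometry.IsProper π ∧
      AlgebraicGeometry.Smooth (π ≫ quotStr v) ∧
      ∃ U : (quot v).Opens, Dense (U : Set (quot v)) ∧ IsIso (π ∣_ U) := by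
  have hp : p.Prime := Fact.out
  have hpk : (p : k) = 0 := CharP.cast_eq_zero k p
  have heq : constants v = Pool.Agent.H519R3.RE.CD v r := by
    ext b
    constructor
    · intro h j _
      exact h j
    · intro h j
      exact h j j.2
  obtain ⟨h1, h2⟩ := Pool.Agent.H519R3.RE.good_CD v hp hpk w hw l hv hV r le_rfl
  have h3 := Pool.Agent.H519R3.RS.concl (Pool.Agent.H519R3.RE.isFilt_EI _ w) h1 h2
  have key : ∀ C : Subalgebra k (MvPolynomial (Fin n ⊕ Fin m) k),
      C = Pool.Agent.H519R3.RE.CD v r →
      IsVariety (X := Spec (CommRingCat.of C)) (Spec.map (CommRingCat.ofHom (algebraMap k C))) ∧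
      ∃ (Y : Scheme.{u}) (π : Y ⟶ Spec (CommRingCat.of C)),
        AlgebraicGeometry.IsIntegral Y ∧ AlgebraicGeometry.IsProper π ∧
        AlgebraicGeometry.Smooth (π ≫ Spec.map (CommRingCat.ofHom (algebraMap k C))) ∧
        ∃ U : (Spec (CommRingCat.of C)).Opens,
          Dense (U : Set (Spec (CommRingCat.of C))) ∧ IsIso (π ∣_ U) := by
    rintro _ rfl
    exact h3
  exact key _ heq

end Pool.Agent.Results.MP_19ffc6_ag.IndependentFields
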